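import Mathlib
import Pool.Agent.Results.MP_b771e3_an.FourthPower

/-!
MP_bdb4fe_an, Q1 for sequences with diagonal linear parts and `D ^ 4 < C`: an injective entire map
into (in fact onto) the basin through every point.
-/

set_option autoImplicit false

namespace Pool.Agent.Results.MP_bdb4fe_an.DiagonalFourthPower

open Filter Topology

/-- `F n = f (n-1) ∘ ⋯ ∘ f 0`. -/
def comp (f : ℕ → EuclideanSpace ℂ (Fin 2) → EuclideanSpace ℂ (Fin 2)) :
    ℕ → EuclideanSpace ℂ (Fin 2) → EuclideanSpace ℂ (Fin 2)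
  | 0 => id
  | n + 1 => f n ∘ comp f n

/-- The basin `{z | f (n-1) ∘ ⋯ ∘ f 0 (z) → 0}`. -/
def basin (f : ℕ → EuclideanSpace ℂ (Fin 2) → EuclideanSpace ℂ (Fin 2)) :
    Set (EuclideanSpace ℂ (Fin 2)) :=
  {z | Tendsto (fun n => comp f n z) atTop (𝓝 0)}

theorem mem_iff (f : ℕ → EuclideanSpace ℂ (Fin 2) → EuclideanSpace ℂ (Fin 2))
    (z : EuclideanSpace ℂ (Fin 2)) :
    z ∈ {z | ∃ x : ℕ → EuclideanSpace ℂ (Fin 2), x 0 = z ∧ (∀ k, x (k + 1) = f k (x k)) ∧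
      Tendsto x atTop (nhds 0)} ↔ z ∈ basin f := by
  constructor
  · rintro ⟨x, h1, h2, h3⟩
    have : ∀ n, x n = comp f n z := by
      intro n
      induction n with
      | zero => exact h1
      | succ n ih => rw [h2, ih]; rfl
    exact h3.congr this
  · intro h
    exact ⟨fun n => comp f n z, rfl, fun k => rfl, h⟩

theorem result (f : ℕ → EuclideanSpace ℂ (Fin 2) → EuclideanSpace ℂ (Fin 2)) (C D : ℝ)
    (hC : 0 < C) (hD : D < 1) (hCD : D ^ 4 < C)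
    (hf : ∀ n, Differentiable ℂ (f n))
    (hinv : ∀ n, ∃ g : EuclideanSpace ℂ (Fin 2) → EuclideanSpace ℂ (Fin 2),
      Differentiable ℂ g ∧ Function.LeftInverse g (f n) ∧ Function.RightInverse g (f n))
    (hbd : ∀ n (z : EuclideanSpace ℂ (Fin 2)), ‖z‖ < 1 →
      C * ‖z‖ ≤ ‖f n z‖ ∧ ‖f n z‖ ≤ D * ‖z‖)
    (hdiag : ∀ n, ∃ d : Fin 2 → ℂ, ∀ (v : EuclideanSpace ℂ (Fin 2)) (i : Fin 2),
      fderiv ℂ (f n) 0 v i = d i * v i)
    (p : EuclideanSpace ℂ (Fin 2)) (hp : p ∈ basin f) :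
    ∃ Φ : EuclideanSpace ℂ (Fin 2) → EuclideanSpace ℂ (Fin 2),
      Differentiable ℂ Φ ∧ Function.Injective Φ ∧ Set.range Φ = basin f ∧ Φ 0 = p ∧
      ∃ Ψ : EuclideanSpace ℂ (Fin 2) → EuclideanSpace ℂ (Fin 2),
        DifferentiableOn ℂ Ψ (basin f) ∧ (∀ w, Ψ (Φ w) = w) ∧ ∀ z ∈ basin f, Φ (Ψ z) = z := by
  obtain ⟨φ, ψ, d1, d2, hr, e1, e2⟩ :=
    Pool.Agent.Results.MP_b771e3_an.FourthPower.result f C D hC hD hCD hf hinv hbd hdiag
  have hset : {z | ∃ x : ℕ → EuclideanSpace ℂ (Fin 2), x 0 = z ∧ (∀ k, x (k + 1) = f k (x k)) ∧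
      Tendsto x atTop (nhds 0)} = basin f := Set.ext fun z => mem_iff f z
  rw [hset] at d1
  have hr' : ∀ w, ψ w ∈ basin f := fun w => (mem_iff f _).1 (hr w)
  have e1' : ∀ z ∈ basin f, ψ (φ z) = z := fun z hz => e1 z ((mem_iff f z).2 hz)
  refine ⟨fun w => ψ (w + φ p), d2.comp (differentiable_id.add_const _), ?_, ?_, ?_,
    fun z => φ z - φ p, d1.sub_const _, ?_, ?_⟩
  · intro w1 w2 h
    have h1 := congrArg φ h
    rw [e2, e2] at h1
    exact add_right_cancel h1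
  · ext z
    constructor
    · rintro ⟨w, rfl⟩
      exact hr' _
    · intro hz
      exact ⟨φ z - φ p, by simp only [sub_add_cancel]; exact e1' z hz⟩
  · simp only [zero_add]
    exact e1' p hp
  · intro w
    simp only [e2, add_sub_cancel_right]
  · intro z hz
    simp only [sub_add_cancel]
    exact e1' z hz

end Pool.Agent.Results.MP_bdb4fe_an.DiagonalFourthPower
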